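import Mathlib
import Pool.Agent.H741.RS.Stm

/-!
# Project RS (helper741), task PID: the identity theorem for kernels
-/

set_option autoImplicit false
open scoped ComplexConjugate

namespace Pool.Agent.H6.RS

open Pool.Agent.H741.RS

theorem ev_zero {n : ℕ} (P : MvPolynomial (Fin n) ℂ) (h : ∀ z ∈ Bn n, ev P z = 0) (z : V n) :
    ev P z = 0 := by
  set R : Polynomial ℂ :=
    MvPolynomial.aeval (fun i => Polynomial.C (z i) * Polynomial.X) P with hR
  have hev : ∀ t : ℂ, R.eval t = ev P (t • z) := by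
    intro t
    have h1 : (Polynomial.evalRingHom t).comp
        (MvPolynomial.aeval (fun i => Polynomial.C (z i) * Polynomial.X) :
          MvPolynomial (Fin n) ℂ →ₐ[ℂ] Polynomial ℂ).toRingHom =
        MvPolynomial.eval (fun i => (t • z) i) := by
      apply MvPolynomial.ringHom_ext
      · intro r; simp
      · intro i
        rw [RingHom.comp_apply, MvPolynomial.eval_X]
        change Polynomial.eval t (MvPolynomial.aeval _ (MvPolynomial.X i)) = (t • z) i
        rw [MvPolynomial.aeval_X, Polynomial.eval_mul, Polynomial.eval_C, Polynomial.eval_X,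
          PiLp.smul_apply, smul_eq_mul, mul_comm]
    have h2 := congrArg (fun f => f P) h1
    exact h2
  have hinf : Set.Infinite {t : ℂ | R.IsRoot t} := by
    have hpos : ∀ m : ℕ, (0 : ℝ) < (‖z‖ + 1) * ((m : ℝ) + 1) := fun m => by positivity
    refine Set.infinite_of_injective_forall_mem
      (f := fun m : ℕ => ((((‖z‖ + 1) * ((m : ℝ) + 1))⁻¹ : ℝ) : ℂ)) ?_ ?_
    · intro a b hab
      have h1 : ((‖z‖ + 1) * ((a : ℝ) + 1))⁻¹ = ((‖z‖ + 1) * ((b : ℝ) + 1))⁻¹ := by
        exact Complex.ofReal_injective hab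
      have h2 := inv_injective h1
      have h3 : (‖z‖ + 1) ≠ 0 := by positivity
      have h4 := mul_left_cancel₀ h3 h2
      have h5 : (a : ℝ) = b := by linarith
      exact_mod_cast h5
    · intro m
      change R.eval _ = 0
      rw [hev]
      apply h
      change ‖_‖ < 1
      rw [norm_smul, Complex.norm_real, norm_inv, Real.norm_of_nonneg (hpos m).le,
        inv_mul_lt_iff₀ (hpos m), mul_one]
      have h1 : (0 : ℝ) ≤ m := Nat.cast_nonneg m
      have h2 := norm_nonneg z
      nlinarith
  have h0 := Polynomial.eq_zero_of_infinite_isRoot R hinf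
  have h1 := hev 1
  rw [h0, one_smul, Polynomial.eval_zero] at h1
  exact h1.symm

theorem ker_left {n k l : ℕ} {u v : V n → V n → ℂ} (hu : Ker k l u) (hv : Ker k l v) (w : V n) :
    ∃ P : MvPolynomial (Fin n) ℂ, ∀ z, ev P z = u z w - v z w := by
  obtain ⟨m, a, b, -, h1⟩ := hu
  obtain ⟨m', a', b', -, h2⟩ := hv
  refine ⟨∑ i, a i * MvPolynomial.C (conj (ev (b i) w)) -
    ∑ i, a' i * MvPolynomial.C (conj (ev (b' i) w)), fun z => ?_⟩
  rw [h1, h2]
  simp only [ev, map_sub, map_sum, map_mul, MvPolynomial.eval_C]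

theorem ker_right {n k l : ℕ} {u v : V n → V n → ℂ} (hu : Ker k l u) (hv : Ker k l v) (z : V n) :
    ∃ P : MvPolynomial (Fin n) ℂ, ∀ w, ev P w = conj (u z w - v z w) := by
  obtain ⟨m, a, b, -, h1⟩ := hu
  obtain ⟨m', a', b', -, h2⟩ := hv
  refine ⟨∑ i, b i * MvPolynomial.C (conj (ev (a i) z)) -
    ∑ i, b' i * MvPolynomial.C (conj (ev (a' i) z)), fun w => ?_⟩
  rw [h1, h2]
  simp only [ev, map_sub, map_sum, map_mul, MvPolynomial.eval_C, Complex.conj_conj]
  congr 1 <;> exact Finset.sum_congr rfl (fun i _ => mul_comm _ _)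

theorem t_PID : S_PID := by
  intro n k u v hu hv h
  have hball : ∀ z ∈ Bn n, ∀ w ∈ Bn n, u z w = v z w := by
    rcases h with h | h
    · exact h
    · intro z hz w hw
      have h1 : (1 - hp z w) ≠ 0 := by
        intro h0
        have h2 : hp z w = 1 := (sub_eq_zero.1 h0).symm
        have h3 : ‖hp z w‖ ≤ ‖w‖ * ‖z‖ := norm_inner_le_norm w z
        rw [h2, norm_one] at h3
        have hz' : ‖z‖ < 1 := hz
        have hw' : ‖w‖ < 1 := hw
        have := norm_nonneg z
        have := norm_nonneg w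
        nlinarith
      exact mul_left_cancel₀ h1 (h z w)
  have h1 : ∀ z, ∀ w ∈ Bn n, u z w = v z w := by
    intro z w hw
    obtain ⟨P, hP⟩ := ker_left hu hv w
    have := ev_zero P (fun z' hz' => by rw [hP, hball z' hz' w hw, sub_self]) z
    rw [hP] at this
    exact sub_eq_zero.1 this
  intro z w
  obtain ⟨P, hP⟩ := ker_right hu hv z
  have := ev_zero P (fun w' hw' => by rw [hP, h1 z w' hw', sub_self, map_zero]) w
  rw [hP, map_eq_zero] at this
  exact sub_eq_zero.1 this

end Pool.Agent.H6.RS
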